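import Pool.Agent.Lib.Pa7c826.Scheme

/-!
Bipartite expanders.
-/

namespace Pool.Agent.Lib.Pa7c826x

open Pool.Agent.Lib.Pa7c826

/-- The neighbourhood of a set of left vertices. -/
def nbR (G : BGraph) (S : Finset (Fin G.a)) : Finset (Fin G.b) :=
  Finset.univ.filter fun j => ∃ i ∈ S, G.E i j = true

/-- The neighbourhood of a set of right vertices. -/
def nbL (G : BGraph) (S : Finset (Fin G.b)) : Finset (Fin G.a) :=
  Finset.univ.filter fun i => ∃ j ∈ S, G.E i j = true

/-- Bipartite `α`-expanders: `|N(S)| ≥ (1 + α) |S|` for every set `S` that contains at most half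
of the left vertices, and for every set `S` that contains at most half of the right vertices. -/
def IsExpander (α : ℝ) (G : BGraph) : Prop :=
  (∀ S : Finset (Fin G.a), 2 * S.card ≤ G.a → (1 + α) * S.card ≤ (nbR G S).card) ∧
    ∀ S : Finset (Fin G.b), 2 * S.card ≤ G.b → (1 + α) * S.card ≤ (nbL G S).card

/-- For some `M` with `M ^ k ≤ N`, `N` the number of left vertices, every set `S` of vertices of
one side has at least `2 |S|` neighbours or is adjacent to all but at most `M` vertices of the
other side. -/
def StronglyExpanding (k : ℕ) (G : BGraph) : Prop :=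
  ∃ M, M ^ k ≤ G.a ∧
    (∀ S : Finset (Fin G.a), 2 * S.card ≤ (nbR G S).card ∨ G.b ≤ (nbR G S).card + M) ∧
    ∀ S : Finset (Fin G.b), 2 * S.card ≤ (nbL G S).card ∨ G.a ≤ (nbL G S).card + M

/-- Balanced bipartite `α`-expanders which are strongly expanding (exponent `k`). -/
def ExpanderClass (α : ℝ) (k : ℕ) (G : BGraph) : Prop :=
  G.a = G.b ∧ IsExpander α G ∧ StronglyExpanding k G

end Pool.Agent.Lib.Pa7c826x
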