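import Pool.Agent.Lib.Pa7c826x.Gad
import Pool.Agent.Lib.Pa7c826x.Defs

/-!
The reduction to expanders at the level of strings.
-/

namespace Pool.Agent.Lib.Pa7c826x

open Pool.Agent.Lib.Pa7c826
open Pool.Agent.Lib.PolyTime

/-! ### Expansion of the abstract relation -/

section exp

variable {α β γ δ : Type*}

theorem gad_pair (c : Fin 4) (κ : Fin 2) : gad (c : ℕ) ((κ : ℕ) + 2 * c) = true := by
  revert c κ; decide

/-- the private neighbours of a gadget vertex -/
def priv (p : (α × Fin 4) × Fin 2) : α × Fin 8 :=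
  (p.1.1, ⟨(p.2 : ℕ) + 2 * (p.1.2 : ℕ), by have := p.1.2.2; have := p.2.2; omega⟩)

theorem priv_injective : Function.Injective (priv (α := α)) := by
  rintro ⟨⟨v, c⟩, κ⟩ ⟨⟨v', c'⟩, κ'⟩ h
  simp only [priv, Prod.mk.injEq, Fin.mk.injEq] at h
  obtain ⟨rfl, h⟩ := h
  have h1 := κ.2
  have h2 := κ'.2
  have h3 : c = c' := Fin.ext (by omega)
  subst h3
  have h4 : κ = κ' := Fin.ext (by omega)
  subst h4
  rfl

theorem ex_expand_left [Finite α] [Finite β] [Finite δ] (E : α → β → Prop)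
    (S : Set ((α × Fin 4) ⊕ ((β × Fin 2) ⊕ γ))) :
    2 * S.ncard ≤ {y | ∃ x ∈ S, ex γ δ E x y}.ncard ∨
      Nat.card (β ⊕ ((α × Fin 8) ⊕ δ)) ≤
        {y | ∃ x ∈ S, ex γ δ E x y}.ncard + Nat.card β := by
  classical
  by_cases h : ∃ x, Sum.inr x ∈ S
  · right
    obtain ⟨x, hx⟩ := h
    have h1 : Set.range (Sum.inr : (α × Fin 8) ⊕ δ → β ⊕ ((α × Fin 8) ⊕ δ)) ⊆
        {y | ∃ x ∈ S, ex γ δ E x y} := by
      rintro _ ⟨y, rfl⟩
      exact ⟨_, hx, ex_inr_inr E _ _⟩
    have h2 := Set.ncard_le_ncard h1 (Set.toFinite _)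
    rw [Set.ncard_range_of_injective Sum.inr_injective] at h2
    rw [Nat.card_sum]
    omega
  · left
    push Not at h
    have h0 : S ⊆ Set.range Sum.inl := by
      rintro (x | x) hx
      · exact ⟨x, rfl⟩
      · exact absurd hx (h x)
    have hS : (Sum.inl '' (Sum.inl ⁻¹' S) : Set ((α × Fin 4) ⊕ ((β × Fin 2) ⊕ γ))) = S := by
      rw [Set.image_preimage_eq_inter_range, Set.inter_eq_left.2 h0]
    have h1 : S.ncard = (Sum.inl ⁻¹' S : Set (α × Fin 4)).ncard := by
      conv_lhs => rw [← hS]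
      rw [Set.ncard_image_of_injective _ Sum.inl_injective]
    have h2 : (fun p => Sum.inr (Sum.inl (priv p))) ''
        ((Sum.inl ⁻¹' S : Set (α × Fin 4)) ×ˢ (Set.univ : Set (Fin 2))) ⊆
        {y : β ⊕ ((α × Fin 8) ⊕ δ) | ∃ x ∈ S, ex γ δ E x y} := by
      rintro _ ⟨⟨⟨v, c⟩, κ⟩, ⟨hp, _⟩, rfl⟩
      exact ⟨_, hp, rfl, gad_pair c κ⟩
    have hinj : Function.Injective (fun p : (α × Fin 4) × Fin 2 =>
        (Sum.inr (Sum.inl (priv p)) : β ⊕ ((α × Fin 8) ⊕ δ))) :=
      fun p q h => priv_injective (Sum.inl_injective (Sum.inr_injective h))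
    have h3 := Set.ncard_le_ncard h2 (Set.toFinite _)
    rw [Set.ncard_image_of_injective _ hinj, Set.ncard_prod, Set.ncard_univ,
      Nat.card_fin] at h3
    omega

theorem ex_expand_right [Finite α] [Finite β] [Finite γ] (E : α → β → Prop)
    (S : Set (β ⊕ ((α × Fin 8) ⊕ δ))) :
    2 * S.ncard ≤ {x | ∃ y ∈ S, ex γ δ E x y}.ncard ∨
      Nat.card ((α × Fin 4) ⊕ ((β × Fin 2) ⊕ γ)) ≤
        {x | ∃ y ∈ S, ex γ δ E x y}.ncard + 4 * Nat.card α := by
  classical
  by_cases h : ∃ y, Sum.inr y ∈ S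
  · right
    obtain ⟨y, hy⟩ := h
    have h1 : Set.range (Sum.inr : (β × Fin 2) ⊕ γ → (α × Fin 4) ⊕ ((β × Fin 2) ⊕ γ)) ⊆
        {x | ∃ y ∈ S, ex γ δ E x y} := by
      rintro _ ⟨x, rfl⟩
      exact ⟨_, hy, ex_inr_inr E _ _⟩
    have h2 := Set.ncard_le_ncard h1 (Set.toFinite _)
    rw [Set.ncard_range_of_injective Sum.inr_injective] at h2
    rw [Nat.card_sum, Nat.card_prod, Nat.card_fin]
    omega
  · left
    push Not at h
    have h0 : S ⊆ Set.range Sum.inl := by
      rintro (x | x) hx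
      · exact ⟨x, rfl⟩
      · exact absurd hx (h x)
    have hS : (Sum.inl '' (Sum.inl ⁻¹' S) : Set (β ⊕ ((α × Fin 8) ⊕ δ))) = S := by
      rw [Set.image_preimage_eq_inter_range, Set.inter_eq_left.2 h0]
    have h1 : S.ncard = (Sum.inl ⁻¹' S : Set β).ncard := by
      conv_lhs => rw [← hS]
      rw [Set.ncard_image_of_injective _ Sum.inl_injective]
    have h2 : (fun p => Sum.inr (Sum.inl p)) ''
        ((Sum.inl ⁻¹' S : Set β) ×ˢ (Set.univ : Set (Fin 2))) ⊆
        {x : (α × Fin 4) ⊕ ((β × Fin 2) ⊕ γ) | ∃ y ∈ S, ex γ δ E x y} := by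
      rintro _ ⟨⟨u, κ⟩, ⟨hp, _⟩, rfl⟩
      exact ⟨_, hp, rfl⟩
    have hinj : Function.Injective (fun p : β × Fin 2 =>
        (Sum.inr (Sum.inl p) : (α × Fin 4) ⊕ ((β × Fin 2) ⊕ γ))) :=
      fun p q h => Sum.inl_injective (Sum.inr_injective h)
    have h3 := Set.ncard_le_ncard h2 (Set.toFinite _)
    rw [Set.ncard_image_of_injective _ hinj,
      Set.ncard_prod, Set.ncard_univ, Nat.card_fin] at h3
    omega

end exp

/-! ### Numbering -/

/-- adjacency function of the new graph; `n` left vertices and `b` right vertices before -/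
def F2 (n b : ℕ) (F : ℕ → ℕ → Bool) (i j : ℕ) : Bool :=
  ((decide (i < n * 4) && decide (j < b)) && F (i / 4) j) ||
  ((((decide (i < n * 4) && (decide (b ≤ j) && decide (j < b + n * 8))) &&
      decide (i / 4 = (j - b) / 8)) && gad (i % 4) ((j - b) % 8)) ||
  ((((decide (n * 4 ≤ i) && decide (i < n * 4 + b * 2)) && decide (j < b)) &&
      decide ((i - n * 4) / 2 = j)) ||
    (decide (n * 4 ≤ i) && decide (b ≤ j))))

/-- numbering of the left vertices -/
def eqL (n b c : ℕ) : (Fin n × Fin 4) ⊕ ((Fin b × Fin 2) ⊕ Fin c) ≃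
    Fin (n * 4 + (b * 2 + c)) :=
  (Equiv.sumCongr finProdFinEquiv
    ((Equiv.sumCongr finProdFinEquiv (Equiv.refl _)).trans finSumFinEquiv)).trans finSumFinEquiv

/-- numbering of the right vertices -/
def eqR (n b c : ℕ) : Fin b ⊕ ((Fin n × Fin 8) ⊕ Fin c) ≃ Fin (b + (n * 8 + c)) :=
  (Equiv.sumCongr (Equiv.refl _)
    ((Equiv.sumCongr finProdFinEquiv (Equiv.refl _)).trans finSumFinEquiv)).trans finSumFinEquiv

theorem eqL_1 (n b c : ℕ) (v : Fin n) (k : Fin 4) :
    (eqL n b c (.inl (v, k)) : ℕ) = k + 4 * v := by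
  simp [eqL]

theorem eqL_2 (n b c : ℕ) (v : Fin b) (k : Fin 2) :
    (eqL n b c (.inr (.inl (v, k))) : ℕ) = n * 4 + (k + 2 * v) := by
  simp [eqL]

theorem eqL_3 (n b c : ℕ) (v : Fin c) :
    (eqL n b c (.inr (.inr v)) : ℕ) = n * 4 + (b * 2 + v) := by
  simp [eqL]

theorem eqR_1 (n b c : ℕ) (v : Fin b) :
    (eqR n b c (.inl v) : ℕ) = v := by
  simp [eqR]

theorem eqR_2 (n b c : ℕ) (v : Fin n) (k : Fin 8) :
    (eqR n b c (.inr (.inl (v, k))) : ℕ) = b + (k + 8 * v) := by
  simp [eqR]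

theorem eqR_3 (n b c : ℕ) (v : Fin c) :
    (eqR n b c (.inr (.inr v)) : ℕ) = b + (n * 8 + v) := by
  simp [eqR]

theorem F2_iff {n b c d : ℕ} (F : ℕ → ℕ → Bool) (x : (Fin n × Fin 4) ⊕ ((Fin b × Fin 2) ⊕ Fin c))
    (y : Fin b ⊕ ((Fin n × Fin 8) ⊕ Fin d)) :
    ex (Fin c) (Fin d) (fun (i : Fin n) (j : Fin b) => F i j = true) x y ↔
      F2 n b F (eqL n b c x) (eqR n b d y) = true := by
  rcases x with ⟨v, k⟩ | ⟨v, k⟩ | x <;> rcases y with u | ⟨u, l⟩ | y <;>
    simp only [eqL_1, eqL_2, eqL_3, eqR_1, eqR_2, eqR_3, F2, ex, Bool.or_eq_true,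
      Bool.and_eq_true, decide_eq_true_eq]
  · have h1 := v.2
    have h2 := k.2
    have h3 := u.2
    have e1 : ((k : ℕ) + 4 * v) / 4 = v := by omega
    rw [e1]
    constructor
    · intro h
      exact Or.inl ⟨⟨by omega, h3⟩, h⟩
    · rintro (h | h | h | h)
      · exact h.2
      · omega
      · omega
      · omega
  · have h1 := v.2
    have h2 := k.2
    have h3 := u.2
    have h4 := l.2
    have e1 : ((k : ℕ) + 4 * v) / 4 = v := by omega
    have e2 : ((k : ℕ) + 4 * v) % 4 = k := by omega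
    have e3 : b + ((l : ℕ) + 8 * u) - b = l + 8 * u := by omega
    have e4 : ((l : ℕ) + 8 * u) / 8 = u := by omega
    have e5 : ((l : ℕ) + 8 * u) % 8 = l := by omega
    rw [e1, e2, e3, e4, e5]
    constructor
    · rintro ⟨h, h'⟩
      right; left
      refine ⟨⟨⟨by omega, by omega, by omega⟩, ?_⟩, h'⟩
      rw [h]
    · rintro (h | h | h | h)
      · omega
      · exact ⟨Fin.ext h.1.2, h.2⟩
      · omega
      · omega
  · have h1 := v.2
    have h2 := k.2
    constructor
    · intro h; exact h.elim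
    · rintro (h | h | h | h) <;> omega
  · have h1 := v.2
    have h2 := k.2
    have h3 := u.2
    constructor
    · intro h
      right; right; left
      refine ⟨⟨⟨by omega, by omega⟩, h3⟩, ?_⟩
      rw [← h]
      omega
    · rintro (h | h | h | h)
      · omega
      · omega
      · exact Fin.ext (by omega)
      · omega
  · constructor
    · intro _
      right; right; right
      exact ⟨by omega, by omega⟩
    · intro _; trivial
  · constructor
    · intro _
      right; right; right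
      exact ⟨by omega, by omega⟩
    · intro _; trivial
  · have h3 := u.2
    constructor
    · intro h; exact h.elim
    · rintro (h | h | h | h) <;> omega
  · constructor
    · intro _
      right; right; right
      exact ⟨by omega, by omega⟩
    · intro _; trivial
  · constructor
    · intro _
      right; right; right
      exact ⟨by omega, by omega⟩
    · intro _; trivial

/-! ### Neighbourhoods -/

theorem card_nbR {α β : Type*} {a b : ℕ} {F : ℕ → ℕ → Bool} {E : α → β → Prop}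
    (eα : α ≃ Fin a) (eβ : β ≃ Fin b) (h : ∀ x y, E x y ↔ F (eα x) (eβ y) = true)
    (S : Finset (Fin a)) :
    (Finset.univ.filter fun j : Fin b => ∃ i ∈ S, F i j = true).card =
      {y | ∃ x ∈ (eα ⁻¹' (S : Set (Fin a))), E x y}.ncard := by
  have h1 : ((Finset.univ.filter fun j : Fin b => ∃ i ∈ S, F i j = true : Finset (Fin b)) :
      Set (Fin b)) = eβ '' {y | ∃ x ∈ (eα ⁻¹' (S : Set (Fin a))), E x y} := by
    ext j
    simp only [Finset.coe_filter, Finset.mem_univ, true_and, Set.mem_ofPred_eq,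
      Set.mem_image, Set.mem_preimage, Finset.mem_coe]
    constructor
    · rintro ⟨i, hi, hij⟩
      refine ⟨eβ.symm j, ⟨eα.symm i, by simpa using hi, ?_⟩, by simp⟩
      rw [h]
      simpa using hij
    · rintro ⟨y, ⟨x, hx, hxy⟩, rfl⟩
      exact ⟨eα x, hx, (h x y).1 hxy⟩
  rw [← Set.ncard_coe_finset, h1, Set.ncard_image_of_injective _ eβ.injective]

theorem card_nbL {α β : Type*} {a b : ℕ} {F : ℕ → ℕ → Bool} {E : α → β → Prop}
    (eα : α ≃ Fin a) (eβ : β ≃ Fin b) (h : ∀ x y, E x y ↔ F (eα x) (eβ y) = true)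
    (S : Finset (Fin b)) :
    (Finset.univ.filter fun i : Fin a => ∃ j ∈ S, F i j = true).card =
      {x | ∃ y ∈ (eβ ⁻¹' (S : Set (Fin b))), E x y}.ncard := by
  have h1 : ((Finset.univ.filter fun i : Fin a => ∃ j ∈ S, F i j = true : Finset (Fin a)) :
      Set (Fin a)) = eα '' {x | ∃ y ∈ (eβ ⁻¹' (S : Set (Fin b))), E x y} := by
    ext j
    simp only [Finset.coe_filter, Finset.mem_univ, true_and, Set.mem_ofPred_eq,
      Set.mem_image, Set.mem_preimage, Finset.mem_coe]
    constructor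
    · rintro ⟨i, hi, hij⟩
      refine ⟨eα.symm j, ⟨eβ.symm i, by simpa using hi, ?_⟩, by simp⟩
      rw [h]
      simpa using hij
    · rintro ⟨y, ⟨x, hx, hxy⟩, rfl⟩
      exact ⟨eβ x, hx, (h y x).1 hxy⟩
  rw [← Set.ncard_coe_finset, h1, Set.ncard_image_of_injective _ eα.injective]

theorem ncard_preimage_equiv {α : Type*} {a : ℕ} (e : α ≃ Fin a) (S : Finset (Fin a)) :
    (e ⁻¹' (S : Set (Fin a))).ncard = S.card := by
  rw [← Set.ncard_coe_finset S]
  conv_rhs => rw [← Set.image_preimage_eq (S : Set (Fin a)) e.surjective]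
  rw [Set.ncard_image_of_injective _ e.injective]

/-! ### The reduction -/

/-- number of left vertices after adding isolated ones -/
def nn (G : BGraph) (t : ℕ) : ℕ := G.a + (2 * G.b + 2 * t)

/-- the small part -/
def ww (G : BGraph) (t : ℕ) : ℕ := nn G t * 4 + G.b

/-- the size of the big part -/
def big (k c : ℕ) (G : BGraph) (t : ℕ) : ℕ := c * ww G t ^ (k + 1)

/-- The new graph. -/
def redX (k c : ℕ) (G : BGraph) (t : ℕ) : BGraph :=
  mkGraph (nn G t * 4 + (G.b * 2 + (nn G t * 4 + big k c G t)))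
    (G.b + (nn G t * 8 + (big k c G t + G.b))) (F2 (nn G t) G.b G.F)

/-- The exponent. -/
def KX (k c : ℕ) (G : BGraph) (t : ℕ) : ℕ :=
  8 * nn G t + (big k c G t + G.b) + (2 * G.b + 2 * t)

theorem redX_a (k c : ℕ) (G : BGraph) (t : ℕ) :
    (redX k c G t).a = nn G t * 4 + (G.b * 2 + (nn G t * 4 + big k c G t)) := rfl

theorem redX_b (k c : ℕ) (G : BGraph) (t : ℕ) :
    (redX k c G t).b = G.b + (nn G t * 8 + (big k c G t + G.b)) := rfl

theorem redX_bal (k c : ℕ) (G : BGraph) (t : ℕ) : (redX k c G t).a = (redX k c G t).b := by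
  rw [redX_a, redX_b]; ring

/-- the abstract relation -/
abbrev relX (k c : ℕ) (G : BGraph) (t : ℕ) :=
  ex (Fin (nn G t * 4 + big k c G t)) (Fin (big k c G t + G.b))
    (fun (i : Fin (nn G t)) (j : Fin G.b) => G.F i j = true)

theorem numIndep_redX (k c : ℕ) (G : BGraph) (t : ℕ) :
    numIndep (redX k c G t).graph = cnt (relX k c G t) :=
  numIndep_mkGraph (eqL _ _ _) (eqR _ _ _) (fun x y => F2_iff G.F x y)

theorem cnt_old (G : BGraph) (t : ℕ) :
    cnt (fun (i : Fin (nn G t)) (j : Fin G.b) => G.F i j = true) =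
      2 ^ (2 * G.b + 2 * t) * numIndep G.graph := by
  have h1 := cnt_pad (γ := Fin (2 * G.b + 2 * t)) (δ := Fin 0)
    (fun (i : Fin G.a) (j : Fin G.b) => G.F i j = true)
  rw [cnt_graph, Nat.card_fin, Nat.card_fin, add_zero] at h1
  rw [mul_comm, ← h1]
  symm
  have e1 : ∀ x : Fin G.a, ((finSumFinEquiv (Sum.inl x : Fin G.a ⊕ Fin (2 * G.b + 2 * t)) :
      Fin (G.a + (2 * G.b + 2 * t))) : ℕ) = x := fun x => by simp
  have e2 : ∀ x : Fin (2 * G.b + 2 * t), ((finSumFinEquiv (Sum.inr x :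
      Fin G.a ⊕ Fin (2 * G.b + 2 * t)) : Fin (G.a + (2 * G.b + 2 * t))) : ℕ) = G.a + x :=
    fun x => by simp
  refine cnt_congr (finSumFinEquiv : Fin G.a ⊕ Fin (2 * G.b + 2 * t) ≃ Fin (nn G t))
    ((Equiv.sumEmpty (Fin G.b) (Fin 0))) ?_
  rintro (x | x) (y | y)
  · have := e1 x
    simp only [pad, Equiv.sumEmpty_apply_inl]
    unfold nn
    rw [this]
  · exact y.elim0
  · have h2 := e2 x
    simp only [pad, Equiv.sumEmpty_apply_inl, false_iff]
    unfold nn
    rw [h2]
    unfold BGraph.F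
    rw [dif_neg]
    · simp
    · rintro ⟨h, _⟩
      omega
  · exact y.elim0

theorem redX_bounds (k c : ℕ) (G : BGraph) (t : ℕ) :
    2 ^ KX k c G t * numIndep G.graph ≤ numIndep (redX k c G t).graph ∧
    2 ^ (2 * t) * numIndep (redX k c G t).graph ≤
      2 ^ KX k c G t * (2 ^ (2 * t) * numIndep G.graph + 1) := by
  rw [numIndep_redX]
  have h := cnt_ex (γ := Fin (nn G t * 4 + big k c G t)) (δ := Fin (big k c G t + G.b))
    (fun (i : Fin (nn G t)) (j : Fin G.b) => G.F i j = true)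
  rw [cnt_old] at h
  simp only [Fintype.card_fin] at h
  have e1 : 2 ^ (8 * nn G t + (big k c G t + G.b)) * (2 ^ (2 * G.b + 2 * t) * numIndep G.graph) =
      2 ^ KX k c G t * numIndep G.graph := by
    rw [← mul_assoc, ← pow_add]
    rfl
  rw [e1] at h
  refine ⟨h.1, ?_⟩
  have e2 : 2 * t + (4 * nn G t + (2 * G.b + (nn G t * 4 + big k c G t)) + G.b) =
      KX k c G t := by
    unfold KX; ring
  calc 2 ^ (2 * t) * cnt (relX k c G t) ≤ 2 ^ (2 * t) * (2 ^ KX k c G t * numIndep G.graph +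
        2 ^ (4 * nn G t + (2 * G.b + (nn G t * 4 + big k c G t)) + G.b)) :=
        Nat.mul_le_mul_left _ h.2
    _ = 2 ^ KX k c G t * (2 ^ (2 * t) * numIndep G.graph) +
        2 ^ (2 * t + (4 * nn G t + (2 * G.b + (nn G t * 4 + big k c G t)) + G.b)) := by
        rw [pow_add 2 (2 * t)]; ring
    _ = _ := by rw [e2]; ring

theorem redX_close (k c : ℕ) (G : BGraph) (t : ℕ) :
    |(numIndep (redX k c G t).graph : ℚ) / 2 ^ KX k c G t - numIndep G.graph| ≤
      numIndep G.graph / (2 * t + 1) := by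
  obtain ⟨h1, h2⟩ := redX_bounds k c G t
  have hK : (0 : ℚ) < 2 ^ KX k c G t := by positivity
  have h1' : (2 : ℚ) ^ KX k c G t * numIndep G.graph ≤ numIndep (redX k c G t).graph := by
    exact_mod_cast h1
  have h2' : (2 : ℚ) ^ (2 * t) * numIndep (redX k c G t).graph ≤
      2 ^ KX k c G t * (2 ^ (2 * t) * numIndep G.graph + 1) := by
    exact_mod_cast h2
  have h3 : (2 * t + 1 : ℚ) ≤ 2 ^ (2 * t) := by
    have : 2 * t + 1 ≤ 2 ^ (2 * t) := Nat.lt_two_pow_self
    exact_mod_cast this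
  have h4 : (1 : ℚ) ≤ numIndep G.graph := by exact_mod_cast one_le_numIndep G
  have hpos : (0 : ℚ) < 2 ^ (2 * t) := by positivity
  have h5 : (numIndep G.graph : ℚ) ≤ numIndep (redX k c G t).graph / 2 ^ KX k c G t := by
    rw [le_div_iff₀ hK]; linarith
  have h6 : (numIndep (redX k c G t).graph : ℚ) / 2 ^ KX k c G t ≤
      numIndep G.graph + 1 / 2 ^ (2 * t) := by
    rw [div_le_iff₀ hK]
    have e : (2 : ℚ) ^ KX k c G t * (2 ^ (2 * t) * numIndep G.graph + 1) =
      2 ^ (2 * t) * ((numIndep G.graph + 1 / 2 ^ (2 * t)) * 2 ^ KX k c G t) := by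
      field_simp
    rw [e] at h2'
    exact le_of_mul_le_mul_left h2' hpos
  have h7 : (1 : ℚ) / 2 ^ (2 * t) ≤ numIndep G.graph / (2 * t + 1) := by
    have h8 : (1 : ℚ) / 2 ^ (2 * t) ≤ 1 / (2 * t + 1) :=
      one_div_le_one_div_of_le (by positivity) h3
    have h9 : (1 : ℚ) / (2 * t + 1) ≤ numIndep G.graph / (2 * t + 1) :=
      div_le_div_of_nonneg_right h4 (by positivity)
    exact h8.trans h9
  rw [abs_le]
  constructor
  · have : (0 : ℚ) ≤ numIndep G.graph / (2 * t + 1) := by positivity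
    linarith
  · linarith

/-! ### Expansion -/

theorem redX_strong (k c : ℕ) (hc : 1 ≤ c) (G : BGraph) (t : ℕ) (ht : 1 ≤ t) :
    ww G t ^ k ≤ (redX k c G t).a ∧
    (∀ S : Finset (Fin (redX k c G t).a), 2 * S.card ≤ (nbR (redX k c G t) S).card ∨
      (redX k c G t).b ≤ (nbR (redX k c G t) S).card + ww G t) ∧
    ∀ S : Finset (Fin (redX k c G t).b), 2 * S.card ≤ (nbL (redX k c G t) S).card ∨
      (redX k c G t).a ≤ (nbL (redX k c G t) S).card + ww G t := by
  have hw : 1 ≤ ww G t := by unfold ww nn; omega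
  refine ⟨?_, ?_, ?_⟩
  · rw [redX_a]
    have h1 : ww G t ^ k ≤ big k c G t := by
      unfold big
      calc ww G t ^ k ≤ ww G t ^ (k + 1) := Nat.pow_le_pow_right hw (Nat.le_succ _)
        _ ≤ c * ww G t ^ (k + 1) := Nat.le_mul_of_pos_left _ hc
    omega
  · show ∀ S : Finset (Fin (nn G t * 4 + (G.b * 2 + (nn G t * 4 + big k c G t)))),
      2 * S.card ≤ (nbR (redX k c G t) S).card ∨
      (redX k c G t).b ≤ (nbR (redX k c G t) S).card + ww G t
    intro S
    have h1 : (nbR (redX k c G t) S).card = _ :=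
      card_nbR (eqL (nn G t) G.b (nn G t * 4 + big k c G t))
      (eqR (nn G t) G.b (big k c G t + G.b)) (fun x y => F2_iff G.F x y) S
    have h2 := ex_expand_left (γ := Fin (nn G t * 4 + big k c G t))
      (δ := Fin (big k c G t + G.b)) (fun (i : Fin (nn G t)) (j : Fin G.b) => G.F i j = true)
      (eqL (nn G t) G.b (nn G t * 4 + big k c G t) ⁻¹' (S : Set (Fin _)))
    rw [ncard_preimage_equiv, ← h1] at h2
    have h3 : Nat.card (Fin G.b ⊕ ((Fin (nn G t) × Fin 8) ⊕ Fin (big k c G t + G.b))) =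
        (redX k c G t).b := by
      rw [redX_b, Nat.card_congr (eqR (nn G t) G.b (big k c G t + G.b)), Nat.card_fin]
    rw [h3, Nat.card_fin] at h2
    rcases h2 with h2 | h2
    · exact Or.inl h2
    · right
      refine h2.trans (Nat.add_le_add_left ?_ _)
      unfold ww; omega
  · show ∀ S : Finset (Fin (G.b + (nn G t * 8 + (big k c G t + G.b)))),
      2 * S.card ≤ (nbL (redX k c G t) S).card ∨
      (redX k c G t).a ≤ (nbL (redX k c G t) S).card + ww G t
    intro S
    have h1 : (nbL (redX k c G t) S).card = _ :=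
      card_nbL (eqL (nn G t) G.b (nn G t * 4 + big k c G t))
      (eqR (nn G t) G.b (big k c G t + G.b)) (fun x y => F2_iff G.F x y) S
    have h2 := ex_expand_right (γ := Fin (nn G t * 4 + big k c G t))
      (δ := Fin (big k c G t + G.b)) (fun (i : Fin (nn G t)) (j : Fin G.b) => G.F i j = true)
      (eqR (nn G t) G.b (big k c G t + G.b) ⁻¹' (S : Set (Fin _)))
    rw [ncard_preimage_equiv, ← h1] at h2
    have h3 : Nat.card ((Fin (nn G t) × Fin 4) ⊕ ((Fin G.b × Fin 2) ⊕
        Fin (nn G t * 4 + big k c G t))) = (redX k c G t).a := by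
      rw [redX_a, Nat.card_congr (eqL (nn G t) G.b (nn G t * 4 + big k c G t)), Nat.card_fin]
    rw [h3, Nat.card_fin] at h2
    rcases h2 with h2 | h2
    · exact Or.inl h2
    · right
      refine h2.trans (Nat.add_le_add_left ?_ _)
      unfold ww; omega

theorem redX_class (α : ℝ) (hα : α < 1) (k c : ℕ) (hc : 2 / (1 - α) ≤ c) (G : BGraph) (t : ℕ)
    (ht : 1 ≤ t) : ExpanderClass α k (redX k c G t) := by
  have h0 : (0 : ℝ) < 1 - α := by linarith
  have hc1 : 1 ≤ c := by
    rcases Nat.eq_zero_or_pos c with h | h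
    · exfalso
      rw [h, Nat.cast_zero] at hc
      have : 0 < 2 / (1 - α) := by positivity
      linarith
    · exact h
  obtain ⟨h1, h2, h3⟩ := redX_strong k c hc1 G t ht
  have hw : 1 ≤ ww G t := by unfold ww nn; omega
  have hbal := redX_bal k c G t
  -- the key inequality
  have hN : (2 : ℝ) * ww G t ≤ (1 - α) * (redX k c G t).a := by
    have h4 : c * ww G t ≤ (redX k c G t).a := by
      rw [redX_a]
      have : c * ww G t ≤ big k c G t := by
        unfold big
        refine Nat.mul_le_mul_left _ ?_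
        calc ww G t = ww G t ^ 1 := (pow_one _).symm
          _ ≤ ww G t ^ (k + 1) := Nat.pow_le_pow_right hw (by omega)
      omega
    have h5 : (c : ℝ) * ww G t ≤ (redX k c G t).a := by exact_mod_cast h4
    have h6 : 2 ≤ (1 - α) * c := by
      rw [div_le_iff₀ h0] at hc
      linarith
    have h7 : (0 : ℝ) ≤ ww G t := Nat.cast_nonneg _
    calc (2 : ℝ) * ww G t ≤ ((1 - α) * c) * ww G t := mul_le_mul_of_nonneg_right h6 h7
      _ = (1 - α) * (c * ww G t) := by ring
      _ ≤ _ := mul_le_mul_of_nonneg_left h5 h0.le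
  have key : ∀ s m : ℕ, 2 * s ≤ (redX k c G t).a → (2 * s ≤ m ∨ (redX k c G t).a ≤ m + ww G t) →
      (1 + α) * s ≤ m := by
    intro s m hs h
    have hs0 : (0 : ℝ) ≤ s := Nat.cast_nonneg _
    rcases h with h | h
    · have h' : (2 : ℝ) * s ≤ m := by exact_mod_cast h
      nlinarith
    · have h' : ((redX k c G t).a : ℝ) ≤ m + ww G t := by exact_mod_cast h
      have hs' : (2 : ℝ) * s ≤ (redX k c G t).a := by exact_mod_cast hs
      by_cases hα1 : 0 ≤ 1 + α
      · have h8 : (1 + α) * (2 * s) ≤ (1 + α) * (redX k c G t).a :=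
          mul_le_mul_of_nonneg_left hs' hα1
        nlinarith
      · have hm : (0 : ℝ) ≤ m := Nat.cast_nonneg _
        nlinarith
  refine ⟨hbal, ⟨?_, ?_⟩, ww G t, h1, h2, h3⟩
  · intro S hS
    refine key _ _ hS ?_
    rcases h2 S with h | h
    · exact Or.inl h
    · exact Or.inr (by rw [hbal]; exact h)
  · intro S hS
    refine key _ _ (by rw [hbal]; exact hS) ?_
    exact h3 S

/-! ### Computability -/

theorem poly_redX (k c : ℕ) (D : BGraph × ℕ → Prop) :
    PolyC D [fun x => inCode x.1 x.2] (fun x => inCode (redX k c x.1 x.2) (2 * x.2)) := by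
  have hw : PolyC D [fun x => inCode x.1 x.2] (fun x => inCode x.1 x.2) := PolyC.var (by simp)
  have ha := poly_a hw
  have hb := poly_b hw
  have ht := poly_s hw
  have h2t := (PolyN.const 2).mul ht
  have hn : PolyN D [fun x => inCode x.1 x.2] (fun x => nn x.1 x.2) :=
    ha.add (((PolyN.const 2).mul hb).add h2t)
  have hW : PolyN D [fun x => inCode x.1 x.2] (fun x => ww x.1 x.2) :=
    (hn.mul (PolyN.const 4)).add hb
  have hB : PolyN D [fun x => inCode x.1 x.2] (fun x => big k c x.1 x.2) :=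
    (PolyN.const c).mul (PolyN.pow hW (k + 1))
  let sL : BGraph × ℕ → ℕ := fun x =>
    nn x.1 x.2 * 4 + (x.1.b * 2 + (nn x.1 x.2 * 4 + big k c x.1 x.2))
  let sR : BGraph × ℕ → ℕ := fun x =>
    x.1.b + (nn x.1 x.2 * 8 + (big k c x.1 x.2 + x.1.b))
  refine poly_inCode (a := sL) (b := sR)
    ((hn.mul (PolyN.const 4)).add ((hb.mul (PolyN.const 2)).add
      ((hn.mul (PolyN.const 4)).add hB)))
    (hb.add ((hn.mul (PolyN.const 8)).add (hB.add hb))) h2t ?_
  -- adjacency
  have N1 := upN (n := sL) hn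
  have B1 := upN (n := sL) hb
  have W1 := up (n := sL) hw
  have I1 := last (D := D) (ctx := [fun x => inCode x.1 x.2]) (n := sL)
  let n2 : (BGraph × ℕ) × ℕ → ℕ := fun p => sR p.1
  have N2 := upN (n := n2) N1
  have B2 := upN (n := n2) B1
  have W2 := up (n := n2) W1
  have I2 := upN (n := n2) I1
  have J2 := last (D := fun p : (BGraph × ℕ) × ℕ => D p.1 ∧ p.2 < sL p.1)
    (ctx := PolyTime.lift [fun x : BGraph × ℕ => inCode x.1 x.2] ++
      [fun p : (BGraph × ℕ) × ℕ => un p.2]) (n := n2)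
  have n4 := N2.mul (PolyN.const 4)
  have jb := PolyN.sub J2 B2
  have hgad := (PolyB.natEq (PolyN.div (PolyN.mod jb (PolyN.const 8) (fun _ _ => by norm_num))
      (PolyN.const 2) (fun _ _ => by norm_num))
      (PolyN.mod I2 (PolyN.const 4) (fun _ _ => by norm_num))).or
    ((PolyB.natEq (PolyN.mod I2 (PolyN.const 4) (fun _ _ => by norm_num)) (PolyN.const 3)).and
      (PolyB.natEq (PolyN.mod jb (PolyN.const 8) (fun _ _ => by norm_num)) (PolyN.const 0)).not)
  have i4 := PolyN.div I2 (PolyN.const 4) (fun _ _ => by norm_num)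
  exact ((((PolyB.lt I2 n4).and (PolyB.lt J2 B2)).and (poly_F W2 i4 J2)).or
    (((((PolyB.lt I2 n4).and ((PolyB.le B2 J2).and
      (PolyB.lt J2 (B2.add (N2.mul (PolyN.const 8)))))).and
      (PolyB.natEq i4 (PolyN.div jb (PolyN.const 8) (fun _ _ => by norm_num)))).and hgad).or
    (((((PolyB.le n4 I2).and (PolyB.lt I2 (n4.add (B2.mul (PolyN.const 2))))).and
      (PolyB.lt J2 B2)).and (PolyB.natEq (PolyN.div (PolyN.sub I2 n4) (PolyN.const 2)
        (fun _ _ => by norm_num)) J2)).or ((PolyB.le n4 I2).and (PolyB.le B2 J2)))))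

theorem poly_KX (k c : ℕ) (D : BGraph × ℕ → Prop) :
    PolyN D [fun x => inCode x.1 x.2] (fun x => KX k c x.1 x.2) := by
  have hw : PolyC D [fun x => inCode x.1 x.2] (fun x => inCode x.1 x.2) := PolyC.var (by simp)
  have ha := poly_a hw
  have hb := poly_b hw
  have ht := poly_s hw
  have h2t := (PolyN.const 2).mul ht
  have hn : PolyN D [fun x => inCode x.1 x.2] (fun x => nn x.1 x.2) :=
    ha.add (((PolyN.const 2).mul hb).add h2t)
  have hW : PolyN D [fun x => inCode x.1 x.2] (fun x => ww x.1 x.2) :=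
    (hn.mul (PolyN.const 4)).add hb
  have hB : PolyN D [fun x => inCode x.1 x.2] (fun x => big k c x.1 x.2) :=
    (PolyN.const c).mul (PolyN.pow hW (k + 1))
  exact (((PolyN.const 8).mul hn).add (hB.add hb)).add (((PolyN.const 2).mul hb).add h2t)

/-- Approximating the number of independent sets of bipartite `α`-expanders, `α < 1`, is as hard
as for all bipartite graphs. -/
theorem expander_iff (α : ℝ) (hα : α < 1) (k : ℕ) :
    HasFPRAS (ExpanderClass α k) ↔ HasFPRAS (fun _ => True) := by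
  constructor
  · intro h
    obtain ⟨c, hc⟩ := exists_nat_ge (2 / (1 - α))
    exact HasFPRAS.transfer2 (redX k c) (KX k c) (poly_redX k c _) (poly_KX k c _)
      (fun G t _ ht => redX_class α hα k c hc G t ht) (fun G t _ _ => redX_close k c G t) h
  · exact HasFPRAS.mono (fun _ _ => trivial)

end Pool.Agent.Lib.Pa7c826x
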