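import Pool.Agent.Lib.Pa7c826.NearHalf
import Pool.Agent.Lib.Pa7c826.Transfer2

/-!
The expander reduction on abstract relations: every left vertex is replaced by a gadget whose
number of independent sets is exactly twice a power of two, every right vertex gets two private
neighbours, and two large sets are completely joined.
-/

namespace Pool.Agent.Lib.Pa7c826x

open Pool.Agent.Lib.Pa7c826

/-- The gadget: four vertices `c`, eight vertices `d`. -/
def gad (c d : ℕ) : Bool := decide (d / 2 = c) || (decide (c = 3) && !decide (d = 0))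

/-- The new relation. -/
def ex {α β : Type*} (γ δ : Type*) (E : α → β → Prop) :
    (α × Fin 4) ⊕ ((β × Fin 2) ⊕ γ) → β ⊕ ((α × Fin 8) ⊕ δ) → Prop
  | .inl p, .inl u => E p.1 u
  | .inl p, .inr (.inl q) => p.1 = q.1 ∧ gad p.2 q.2 = true
  | .inl _, .inr (.inr _) => False
  | .inr (.inl q), .inl u => q.1 = u
  | .inr (.inr _), .inl _ => False
  | .inr _, .inr _ => True

theorem ex_inr_inr {α β γ δ : Type*} (E : α → β → Prop) (x : (β × Fin 2) ⊕ γ)
    (y : (α × Fin 8) ⊕ δ) : ex γ δ E (.inr x) (.inr y) := by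
  rcases x with x | x
  · exact trivial
  · exact trivial

/-! ### Counting sets avoiding a set -/

theorem card_avoid {β : Type*} [Fintype β] (p : β → Prop) :
    Nat.card {Q : Set β // ∀ b ∈ Q, p b} = 2 ^ Nat.card {b // p b} := by
  rw [← card_set']
  refine Nat.card_congr
    { toFun := fun Q => {b | b.1 ∈ Q.1}
      invFun := fun Q => ⟨Subtype.val '' Q, by rintro _ ⟨b, _, rfl⟩; exact b.2⟩
      left_inv := ?_
      right_inv := ?_ }
  · rintro ⟨Q, hQ⟩
    apply Subtype.ext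
    ext b
    simp only [Set.mem_image, Set.mem_ofPred_eq, Subtype.exists, exists_and_left,
      exists_prop, exists_eq_right_right]
    exact ⟨fun h => h.1, fun h => ⟨h, hQ b h⟩⟩
  · intro Q
    ext b
    simp only [Set.mem_ofPred_eq, Set.mem_image, Subtype.exists, exists_and_right,
      exists_eq_right]
    exact ⟨fun h => h.2, fun h => ⟨b.2, h⟩⟩

/-! ### The gadget -/

/-- independent pairs in the gadget -/
abbrev GInd (p : Set (Fin 4) × Set (Fin 8)) : Prop :=
  ∀ c ∈ p.1, ∀ d ∈ p.2, ¬ gad (c : ℕ) (d : ℕ) = true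

theorem card_gad_sum : (∑ T : Finset (Fin 4), 2 ^ (Finset.univ.filter
    fun d : Fin 8 => ∀ c ∈ T, ¬ gad (c : ℕ) (d : ℕ) = true).card) = 512 := by
  decide +kernel

theorem card_gad : Nat.card {p : Set (Fin 4) × Set (Fin 8) // GInd p} = 2 ^ 9 := by
  classical
  have e : {p : Set (Fin 4) × Set (Fin 8) // GInd p} ≃
      Σ T : Set (Fin 4), {D : Set (Fin 8) // ∀ c ∈ T, ∀ d ∈ D, ¬ gad (c : ℕ) (d : ℕ) = true} :=
    Equiv.subtypeProdEquivSigmaSubtype
      (fun (T : Set (Fin 4)) (D : Set (Fin 8)) => ∀ c ∈ T, ∀ d ∈ D, ¬ gad (c : ℕ) (d : ℕ) = true)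
  rw [Nat.card_congr e, Nat.card_sigma]
  rw [← Equiv.sum_comp (Fintype.finsetEquivSet (α := Fin 4))]
  have h : ∀ T : Finset (Fin 4), Nat.card {D : Set (Fin 8) // ∀ c ∈ Fintype.finsetEquivSet T,
      ∀ d ∈ D, ¬ gad (c : ℕ) (d : ℕ) = true} = 2 ^ (Finset.univ.filter
    fun d : Fin 8 => ∀ c ∈ T, ¬ gad (c : ℕ) (d : ℕ) = true).card := by
    intro T
    rw [← Fintype.card_subtype, ← Nat.card_eq_fintype_card, ← card_avoid]
    refine Nat.card_congr (Equiv.subtypeEquivRight ?_)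
    intro D
    simp only [Fintype.finsetEquivSet_apply, Finset.mem_coe]
    exact ⟨fun h b hb c hc => h c hc b hb, fun h c hc d hd => h d hd c hc⟩
  simp only [h]
  exact card_gad_sum

theorem card_gad0 : Nat.card {p : Set (Fin 4) × Set (Fin 8) // GInd p ∧ p.1 = ∅} = 2 ^ 8 := by
  have : (2 : ℕ) ^ 8 = Nat.card (Set (Fin 8)) := by
    rw [card_set']; simp
  rw [this]
  refine Nat.card_congr
    { toFun := fun p => p.1.2
      invFun := fun D => ⟨(∅, D), fun c hc => absurd hc (Set.notMem_empty c), rfl⟩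
      left_inv := ?_
      right_inv := fun _ => rfl }
  rintro ⟨⟨P, Q⟩, h1, h2⟩
  apply Subtype.ext
  simp only at h2 ⊢
  rw [h2]

/-! ### Counting for a fixed right set -/

section count

variable {α β γ δ : Type*} [Fintype α] [Fintype β] [Fintype γ] [Fintype δ]

set_option linter.unusedSectionVars false

open Classical in
theorem card_left (E : α → β → Prop) (Q : Set β) :
    Nat.card {P : Set α // ∀ a ∈ P, ∀ b ∈ Q, ¬ E a b} =
      ∏ v : α, (if ∃ u ∈ Q, E v u then 1 else 2) := by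
  have h : ∀ P : Set α, (∀ a ∈ P, ∀ b ∈ Q, ¬ E a b) ↔ ∀ a ∈ P, ¬ ∃ u ∈ Q, E a u := by
    intro P
    simp only [not_exists, not_and]
  rw [Nat.card_congr (Equiv.subtypeEquivRight h), card_avoid, Nat.card_eq_fintype_card,
    Fintype.card_subtype, ← Finset.prod_const, Finset.prod_filter]
  refine Finset.prod_congr rfl fun v _ => ?_
  by_cases hv : ∃ u ∈ Q, E v u
  · rw [if_neg (by simpa using hv), if_pos hv]
  · rw [if_pos hv, if_neg hv]

open Classical in
theorem cnt_eq_sum (E : α → β → Prop) :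
    cnt E = ∑ Q : Set β, ∏ v : α, (if ∃ u ∈ Q, E v u then 1 else 2) := by
  unfold cnt
  have e : {P : Set α × Set β // ∀ a ∈ P.1, ∀ b ∈ P.2, ¬ E a b} ≃
      {P : Set β × Set α // ∀ a ∈ P.2, ∀ b ∈ P.1, ¬ E a b} :=
    Equiv.subtypeEquiv (Equiv.prodComm _ _) (fun P => Iff.rfl)
  rw [Nat.card_congr (e.trans (Equiv.subtypeProdEquivSigmaSubtype
    (fun (Q : Set β) (P : Set α) => ∀ a ∈ P, ∀ b ∈ Q, ¬ E a b))), Nat.card_sigma]
  exact Finset.sum_congr rfl fun Q _ => card_left E Q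

/-- local condition at a left vertex -/
abbrev LC (E : α → β → Prop) (Q : Set β) (v : α) (p : Set (Fin 4) × Set (Fin 8)) : Prop :=
  GInd p ∧ ((∃ u ∈ Q, E v u) → p.1 = ∅)

open Classical in
theorem card_LC (E : α → β → Prop) (Q : Set β) (v : α) :
    Nat.card {p // LC E Q v p} = 2 ^ 8 * (if ∃ u ∈ Q, E v u then 1 else 2) := by
  by_cases hv : ∃ u ∈ Q, E v u
  · rw [if_pos hv, mul_one, ← card_gad0]
    exact Nat.card_congr (Equiv.subtypeEquivRight fun p =>
      ⟨fun h => ⟨h.1, h.2 hv⟩, fun h => ⟨h.1, fun _ => h.2⟩⟩)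
  · rw [if_neg hv, ← pow_succ, ← card_gad]
    exact Nat.card_congr (Equiv.subtypeEquivRight fun p =>
      ⟨fun h => h.1, fun h => ⟨h, fun h' => absurd h' hv⟩⟩)

/-- The first phase: no vertex of the big left set. -/
theorem card_phase1 (E : α → β → Prop) :
    Nat.card {P : Set ((α × Fin 4) ⊕ ((β × Fin 2) ⊕ γ)) × Set (β ⊕ ((α × Fin 8) ⊕ δ)) //
      (∀ x ∈ P.1, ∀ y ∈ P.2, ¬ ex γ δ E x y) ∧ ∀ x, Sum.inr x ∉ P.1} =
    2 ^ (8 * Fintype.card α + Fintype.card δ) * cnt E := by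
  classical
  let T := Σ Q : Set β, (Set δ × ∀ v : α, {p // LC E Q v p})
  have e : {P : Set ((α × Fin 4) ⊕ ((β × Fin 2) ⊕ γ)) × Set (β ⊕ ((α × Fin 8) ⊕ δ)) //
      (∀ x ∈ P.1, ∀ y ∈ P.2, ¬ ex γ δ E x y) ∧ ∀ x, Sum.inr x ∉ P.1} ≃
      {R : Set β × (Set δ × (α → Set (Fin 4) × Set (Fin 8))) // ∀ v, LC E R.1 v (R.2.2 v)} :=
    { toFun := fun P => ⟨(Sum.inl ⁻¹' P.1.2, ({x | Sum.inr (Sum.inr x) ∈ P.1.2},
          fun v => ({c | Sum.inl (v, c) ∈ P.1.1}, {d | Sum.inr (Sum.inl (v, d)) ∈ P.1.2}))), by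
            obtain ⟨⟨P, Q⟩, h1, h2⟩ := P
            intro v
            refine ⟨?_, ?_⟩
            · intro c hc d hd hg
              exact h1 _ hc _ hd ⟨rfl, hg⟩
            · rintro ⟨u, hu, hvu⟩
              rw [Set.eq_empty_iff_forall_notMem]
              intro c hc
              exact h1 _ hc _ hu hvu⟩
      invFun := fun R => ⟨({x | ∃ v c, x = Sum.inl (v, c) ∧ c ∈ (R.1.2.2 v).1},
          {y | (∃ u, y = Sum.inl u ∧ u ∈ R.1.1) ∨
            (∃ v d, y = Sum.inr (Sum.inl (v, d)) ∧ d ∈ (R.1.2.2 v).2) ∨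
            (∃ z, y = Sum.inr (Sum.inr z) ∧ z ∈ R.1.2.1)}), by
            obtain ⟨⟨Q, ⟨D, f⟩⟩, h⟩ := R
            refine ⟨?_, ?_⟩
            · rintro x ⟨v, c, rfl, hc⟩ y (⟨u, rfl, hu⟩ | ⟨v', d, rfl, hd⟩ | ⟨z, rfl, hz⟩) hxy
              · have h1 := (h v).2 ⟨u, hu, hxy⟩
                simp only at hc h1
                rw [h1] at hc
                exact hc
              · obtain ⟨h1, h2⟩ := hxy
                simp only at h1 h2
                subst h1
                exact (h v).1 c hc d hd h2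
              · exact hxy
            · rintro x ⟨v, c, hx, _⟩
              cases hx⟩
      left_inv := by
        rintro ⟨⟨P, Q⟩, h1, h2⟩
        apply Subtype.ext
        refine Prod.ext ?_ ?_
        · ext x
          rcases x with ⟨v, c⟩ | x
          · simp only [Set.mem_ofPred_eq, Sum.inl.injEq, Prod.mk.injEq]
            constructor
            · rintro ⟨v', c', ⟨rfl, rfl⟩, hc⟩
              exact hc
            · intro hc
              exact ⟨v, c, ⟨rfl, rfl⟩, hc⟩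
          · simp only [Set.mem_ofPred_eq, reduceCtorEq, false_and, exists_false, false_iff]
            exact h2 x
        · ext y
          rcases y with u | ⟨v, d⟩ | z
          · simp
          · simp only [Set.mem_ofPred_eq, reduceCtorEq, false_and, exists_false, false_or,
              or_false, Sum.inr.injEq, Sum.inl.injEq, Prod.mk.injEq]
            constructor
            · rintro ⟨v', c', ⟨rfl, rfl⟩, hc⟩
              exact hc
            · intro hc
              exact ⟨v, d, ⟨rfl, rfl⟩, hc⟩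
          · simp
      right_inv := by
        rintro ⟨⟨Q, ⟨D, f⟩⟩, h⟩
        apply Subtype.ext
        refine Prod.ext ?_ (Prod.ext ?_ ?_)
        · ext u
          simp
        · ext z
          simp
        · funext v
          refine Prod.ext ?_ ?_
          · ext c
            simp only [Set.mem_ofPred_eq, Sum.inl.injEq, Prod.mk.injEq]
            constructor
            · rintro ⟨v', c', ⟨rfl, rfl⟩, hc⟩
              exact hc
            · intro hc
              exact ⟨v, c, ⟨rfl, rfl⟩, hc⟩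
          · ext d
            simp only [Set.mem_ofPred_eq, reduceCtorEq, false_and, exists_false, false_or,
              or_false, Sum.inr.injEq, Sum.inl.injEq, Prod.mk.injEq]
            constructor
            · rintro ⟨v', c', ⟨rfl, rfl⟩, hc⟩
              exact hc
            · intro hc
              exact ⟨v, d, ⟨rfl, rfl⟩, hc⟩ }
  have e2 : ∀ Q : Set β, {R : Set δ × (α → Set (Fin 4) × Set (Fin 8)) //
      ∀ v, LC E Q v (R.2 v)} ≃ Set δ × ∀ v : α, {p // LC E Q v p} := fun Q =>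
    { toFun := fun R => (R.1.1, fun v => ⟨R.1.2 v, R.2 v⟩)
      invFun := fun R => ⟨(R.1, fun v => (R.2 v).1), fun v => (R.2 v).2⟩
      left_inv := fun _ => rfl
      right_inv := fun _ => rfl }
  rw [Nat.card_congr (e.trans (Equiv.subtypeProdEquivSigmaSubtype
    (fun (Q : Set β) (R : Set δ × (α → Set (Fin 4) × Set (Fin 8))) => ∀ v, LC E Q v (R.2 v)))),
    Nat.card_sigma, cnt_eq_sum, Finset.mul_sum]
  refine Finset.sum_congr rfl fun Q _ => ?_
  rw [Nat.card_congr (e2 Q), Nat.card_prod, card_set', Nat.card_pi]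
  simp only [card_LC]
  rw [Finset.prod_mul_distrib, Finset.prod_const, Finset.card_univ, Nat.card_eq_fintype_card,
    pow_add, pow_mul]
  ring

/-- The second phase: some vertex of the big left set. -/
theorem card_phase2 (E : α → β → Prop) :
    Nat.card {P : Set ((α × Fin 4) ⊕ ((β × Fin 2) ⊕ γ)) × Set (β ⊕ ((α × Fin 8) ⊕ δ)) //
      (∀ x ∈ P.1, ∀ y ∈ P.2, ¬ ex γ δ E x y) ∧ ¬ ∀ x, Sum.inr x ∉ P.1} ≤
    2 ^ (4 * Fintype.card α + (2 * Fintype.card β + Fintype.card γ) + Fintype.card β) := by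
  classical
  have h1 : 2 ^ (4 * Fintype.card α + (2 * Fintype.card β + Fintype.card γ) + Fintype.card β) =
      Nat.card (Set ((α × Fin 4) ⊕ ((β × Fin 2) ⊕ γ)) × Set β) := by
    rw [Nat.card_prod, card_set', card_set', ← pow_add]
    congr 1
    simp only [Nat.card_eq_fintype_card, Fintype.card_sum, Fintype.card_prod, Fintype.card_fin]
    ring
  rw [h1]
  refine Nat.card_le_card_of_injective (fun P => (P.1.1, Sum.inl ⁻¹' P.1.2)) ?_
  rintro ⟨⟨P, Q⟩, h2, h3⟩ ⟨⟨P', Q'⟩, h2', h3'⟩ h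
  simp only [Prod.mk.injEq] at h
  obtain ⟨rfl, hQ⟩ := h
  apply Subtype.ext
  refine Prod.ext rfl ?_
  simp only [not_forall, not_not] at h3
  obtain ⟨x, hx⟩ := h3
  ext y
  rcases y with u | y
  · have := Set.ext_iff.1 hQ u
    exact this
  · constructor
    · intro hy
      exact absurd (ex_inr_inr E _ _) (h2 _ hx _ hy)
    · intro hy
      exact absurd (ex_inr_inr E _ _) (h2' _ hx _ hy)

theorem cnt_ex (E : α → β → Prop) :
    2 ^ (8 * Fintype.card α + Fintype.card δ) * cnt E ≤ cnt (ex γ δ E) ∧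
    cnt (ex γ δ E) ≤ 2 ^ (8 * Fintype.card α + Fintype.card δ) * cnt E +
      2 ^ (4 * Fintype.card α + (2 * Fintype.card β + Fintype.card γ) + Fintype.card β) := by
  classical
  have e : {P : Set ((α × Fin 4) ⊕ ((β × Fin 2) ⊕ γ)) × Set (β ⊕ ((α × Fin 8) ⊕ δ)) //
      ∀ x ∈ P.1, ∀ y ∈ P.2, ¬ ex γ δ E x y} ≃
      {P : Set ((α × Fin 4) ⊕ ((β × Fin 2) ⊕ γ)) × Set (β ⊕ ((α × Fin 8) ⊕ δ)) //
        (∀ x ∈ P.1, ∀ y ∈ P.2, ¬ ex γ δ E x y) ∧ ∀ x, Sum.inr x ∉ P.1} ⊕
      {P : Set ((α × Fin 4) ⊕ ((β × Fin 2) ⊕ γ)) × Set (β ⊕ ((α × Fin 8) ⊕ δ)) //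
        (∀ x ∈ P.1, ∀ y ∈ P.2, ¬ ex γ δ E x y) ∧ ¬ ∀ x, Sum.inr x ∉ P.1} := by
    refine (Equiv.sumCompl (fun P : {P : Set ((α × Fin 4) ⊕ ((β × Fin 2) ⊕ γ)) ×
      Set (β ⊕ ((α × Fin 8) ⊕ δ)) // ∀ x ∈ P.1, ∀ y ∈ P.2, ¬ ex γ δ E x y} =>
        ∀ x, Sum.inr x ∉ P.1.1)).symm.trans ?_
    refine Equiv.sumCongr ?_ ?_
    · exact Equiv.subtypeSubtypeEquivSubtypeInter _
        (fun P : Set ((α × Fin 4) ⊕ ((β × Fin 2) ⊕ γ)) × Set (β ⊕ ((α × Fin 8) ⊕ δ)) =>
          ∀ x, Sum.inr x ∉ P.1)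
    · exact Equiv.subtypeSubtypeEquivSubtypeInter _
        (fun P : Set ((α × Fin 4) ⊕ ((β × Fin 2) ⊕ γ)) × Set (β ⊕ ((α × Fin 8) ⊕ δ)) =>
          ¬ ∀ x, Sum.inr x ∉ P.1)
  have h1 : cnt (ex γ δ E) = 2 ^ (8 * Fintype.card α + Fintype.card δ) * cnt E +
      Nat.card {P : Set ((α × Fin 4) ⊕ ((β × Fin 2) ⊕ γ)) × Set (β ⊕ ((α × Fin 8) ⊕ δ)) //
        (∀ x ∈ P.1, ∀ y ∈ P.2, ¬ ex γ δ E x y) ∧ ¬ ∀ x, Sum.inr x ∉ P.1} := by
    conv_lhs => unfold cnt
    rw [Nat.card_congr e, Nat.card_sum, card_phase1]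
  rw [h1]
  exact ⟨Nat.le_add_right _ _, Nat.add_le_add_left (card_phase2 E) _⟩

end count

end Pool.Agent.Lib.Pa7c826x
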